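import Mathlib
import Pool.Agent.Y353.BS.Final

/-!
# The sets `B_s` for all `s < 1` at once

For a pair `(α, β)` of reals and `n ≥ 1` let `m_n ≤ M_n` be the distances of `n α`, `n β` to the nearest integers,
in increasing order. Bugeaud asked for the Hausdorff dimension of the set `B_s` of the pairs with
`inf_n n m_n ^ s M_n ^ (2 - s) > 0`, `0 < s < 1`; it is `2` for each `s`. Here we show that a single set `G` of
Hausdorff dimension `2` is contained in all the sets `B_s`, `0 ≤ s < 1`: the set of the pairs for which there is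
`C` with

  `n m_n M_n ≥ exp (-C (1 + √(log (1 + √n M_n))))` for all `n ≥ 1`.

So the intersection of all `B_s`, `0 ≤ s < 1`, has dimension `2` (while `B_1` has dimension `0`), and the exponents
`s < 1` may be replaced by the exponent `1` with a subpolynomial correction in `√n M_n`.
-/

set_option autoImplicit false

namespace Pool.Agent.Results.MP_2cf87a_nt.AllExponentsAtOnce

/-- The distance `‖x‖` from the real number `x` to the nearest integer. -/
noncomputable def distZ (x : ℝ) : ℝ := |x - round x|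

/-- `m_n = min (‖nα‖, ‖nβ‖)` -/
noncomputable def mn (p : EuclideanSpace ℝ (Fin 2)) (n : ℕ) : ℝ := min (distZ (n * p 0)) (distZ (n * p 1))

/-- `M_n = max (‖nα‖, ‖nβ‖)` -/
noncomputable def Mx (p : EuclideanSpace ℝ (Fin 2)) (n : ℕ) : ℝ := max (distZ (n * p 0)) (distZ (n * p 1))

/-- The set `B_s` of all `(α, β)` in the Euclidean plane with `inf_{n ≥ 1} n * m_n ^ s * M_n ^ (2 - s) > 0`. -/
def B (s : ℝ) : Set (EuclideanSpace ℝ (Fin 2)) :=
  {p | 0 < ⨅ n : ℕ+, ((n : ℕ) : ℝ) * mn p n ^ s * Mx p n ^ (2 - s)}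

/-- The set `G` of the pairs for which there is `C` with
`n m_n M_n ≥ exp (-C (1 + √(log (1 + √n M_n))))` for all `n ≥ 1`. -/
def G : Set (EuclideanSpace ℝ (Fin 2)) :=
  {p | ∃ C : ℝ, ∀ n : ℕ, 1 ≤ n →
    Real.exp (-(C * (1 + √(Real.log (1 + √(n : ℝ) * Mx p n))))) ≤ n * mn p n * Mx p n}

theorem le_two (S : Set (EuclideanSpace ℝ (Fin 2))) : dimH S ≤ 2 := by
  have h := dimH_mono (Set.subset_univ S)
  refine h.trans (le_of_eq ?_)
  rw [Real.dimH_univ_eq_finrank]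
  simp

theorem two_le : 2 ≤ dimH G := by
  set e : EuclideanSpace ℝ (Fin 2) ≃L[ℝ] ℝ × ℝ :=
    (EuclideanSpace.equiv (Fin 2) ℝ).trans (ContinuousLinearEquiv.finTwoArrow ℝ ℝ) with he
  have h1 : G = e ⁻¹' Pool.Agent.Y353.BS.GProd := rfl
  rw [h1, ContinuousLinearEquiv.dimH_preimage]
  exact Pool.Agent.Y353.BS.dimH_GProd

theorem sub {s : ℝ} (hs0 : 0 ≤ s) (hs1 : s < 1) : G ⊆ B s := by
  rintro p ⟨C, hC⟩
  set K := max C 0 with hK
  have hK0 : 0 ≤ K := le_max_right _ _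
  obtain ⟨c, hc⟩ : ∃ c : ℝ, c = Real.exp (-(K + K ^ 2 / (4 * (2 - 2 * s)) +
      (2 - 2 * s) * Real.log (1 + Real.exp (K * (1 + √(Real.log 2)))))) := ⟨_, rfl⟩
  have hc0 : 0 < c := by rw [hc]; exact Real.exp_pos _
  show 0 < ⨅ n : ℕ+, ((n : ℕ) : ℝ) * mn p n ^ s * Mx p n ^ (2 - s)
  refine lt_of_lt_of_le hc0 (le_ciInf fun n => ?_)
  have hn : (1 : ℝ) ≤ ((n : ℕ) : ℝ) := by exact_mod_cast n.pos
  have hn0 : (0 : ℝ) ≤ ((n : ℕ) : ℝ) := by linarith
  set t := √(((n : ℕ) : ℝ)) with ht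
  have ht0 : 0 < t := Real.sqrt_pos.2 (by linarith)
  have ht2 : t ^ 2 = ((n : ℕ) : ℝ) := Real.sq_sqrt hn0
  have hm0 : 0 ≤ mn p n := le_min (abs_nonneg _) (abs_nonneg _)
  have hmM : mn p n ≤ Mx p n := min_le_max
  have hM0 : 0 ≤ Mx p n := hm0.trans hmM
  have h1 := hC n n.pos
  have h2 : Real.exp (-(K * (1 + √(Real.log (1 + t * Mx p n))))) ≤ (t * mn p n) * (t * Mx p n) := by
    have h3 : Real.exp (-(K * (1 + √(Real.log (1 + t * Mx p n))))) ≤
        Real.exp (-(C * (1 + √(Real.log (1 + t * Mx p n))))) := by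
      rw [Real.exp_le_exp, neg_le_neg_iff]
      exact mul_le_mul_of_nonneg_right (le_max_left _ _) (by positivity)
    refine (h3.trans h1).trans (le_of_eq ?_)
    rw [← ht2]
    ring
  obtain ⟨c', hc', h4⟩ := Pool.Agent.Y353.BS.gauge_to (mul_nonneg ht0.le hM0) (mul_nonneg ht0.le hm0)
    (mul_le_mul_of_nonneg_left hmM ht0.le) hs0 hs1 hK0 h2
  rw [hc, ← hc']
  refine h4.trans (le_of_eq ?_)
  rw [Real.mul_rpow ht0.le hm0, Real.mul_rpow ht0.le hM0]
  have e : t ^ s * t ^ (2 - s) = ((n : ℕ) : ℝ) := by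
    rw [← Real.rpow_add ht0, ← ht2, ← Real.rpow_natCast]; congr 1; push_cast; ring
  calc t ^ s * mn p n ^ s * (t ^ (2 - s) * Mx p n ^ (2 - s)) =
        (t ^ s * t ^ (2 - s)) * mn p n ^ s * Mx p n ^ (2 - s) := by ring
    _ = _ := by rw [e]

/-- The set `G` has Hausdorff dimension `2` and is contained in all the `B_s`, `0 ≤ s < 1`. Hence the intersection
of all the `B_s`, `0 ≤ s < 1`, has dimension `2`, and so has each `B_s`. -/
theorem result : dimH G = 2 ∧ (∀ s : ℝ, 0 ≤ s → s < 1 → G ⊆ B s) ∧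
    dimH (⋂ s ∈ Set.Ico (0 : ℝ) 1, B s) = 2 ∧ ∀ s : ℝ, 0 ≤ s → s < 1 → dimH (B s) = 2 := by
  refine ⟨le_antisymm (le_two _) two_le, fun s h0 h1 => sub h0 h1, le_antisymm (le_two _) ?_, fun s h0 h1 =>
    le_antisymm (le_two _) (two_le.trans (dimH_mono (sub h0 h1)))⟩
  refine two_le.trans (dimH_mono ?_)
  exact Set.subset_iInter₂ fun s hs => sub hs.1 hs.2

end Pool.Agent.Results.MP_2cf87a_nt.AllExponentsAtOnce
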